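import Pool.Agent.helper95.GMC.Wrap2

/-!
MP_d68443_pr, Q1 (full answer, affirmative): for `γ = 1/√2` the renormalised Fourier coefficients
`(log n)^{1/4} n^{1/4} |c_n|` of the Gaussian multiplicative chaos on `[0,1]` converge in
distribution to a non-trivial limit.
-/

open MeasureTheory ProbabilityTheory Filter Topology Set

namespace Pool.Agent.Results.MP_d68443_pr.FourierLimit

open Pool.Agent.helper95.GMC

/-- There is a law `ν ≠ δ_0` on `ℝ` such that, for every centred Gaussian field `W` with covariance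
kernel `log (1/|x-y|)` (on a set `D`, for instance `[0,1]`), every mollification `X_m` of it and
the almost sure weak limit `Mγ` of `exp (γ X_m(x) - γ²/2 E X_m(x)²) dx` on `[0,1]`, `γ = 1/√2`, the
random variables `(log n)^{1/4} n^{1/4} |∫_{[0,1]} e^{-2πinx} Mγ(dx)|` converge in distribution
to `ν`. -/
theorem result : ∃ (ν : Measure ℝ) (_ : IsProbabilityMeasure ν), ν ≠ Measure.dirac 0 ∧
    ∀ {Ω : Type*} [MeasurableSpace Ω] (P : Measure Ω) [IsProbabilityMeasure P]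
      (D : Set ℝ) (W : (ℝ → ℝ) → Ω → ℝ) (_ : IsLogField P D W)
      (ρ : ℕ → ℝ → ℝ → ℝ) (ε : ℕ → ℝ) (A : ℝ) (_ : IsMollifier ρ ε A)
      (_ : ∀ m, ∀ x ∈ Set.Icc (0 : ℝ) 1, IsTest D (ρ m x))
      (X : ℕ → ℝ → Ω → ℝ) (Mγ : Ω → Measure ℝ) (_ : IsChaos P W ρ X Mγ),
      TendstoInDistribution (fun (n : ℕ) (ω : Ω) => (Real.log n) ^ (1 / 4 : ℝ) *
        (n : ℝ) ^ (1 / 4 : ℝ) * ‖∫ x in Set.Icc (0 : ℝ) 1,
          Complex.exp (-(2 * Real.pi * n * x * Complex.I)) ∂(Mγ ω)‖) atTop (id : ℝ → ℝ)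
        (fun _ => P) ν :=
  chaos_limit

end Pool.Agent.Results.MP_d68443_pr.FourierLimit
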